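import Mathlib

/-!
# Independent domination versus weak domination in trees (MP_2d208d_co)

For every finite tree (indeed every finite forest) the independent domination number is at most
the weak domination number.

The proof is an induction on the number of vertices, for the induced subgraphs `G[W]` of a fixed
forest `G`.  Let `D` be a weak dominating set of `G[W]`.

* Isolated vertices and components with one edge are removed.
* If some vertex has two leaf neighbours, one of them is removed.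
* Otherwise let `S1` be the set of the vertices of degree at least two and `S2` the set of the
  vertices of `S1` with at least two neighbours in `S1`.  A vertex of `S1` outside `S2` has degree
  two; its neighbours are a leaf and a vertex of `S1`.  There is a vertex `c` which has a neighbour
  in `S1 \ S2` and at most one neighbour in `S2`.
* If `c` has a leaf neighbour, or is in `D`, or has a neighbour `b` in `(S1 \ S2) ∩ D`, one removes
  a pendant path with two vertices at `c`.
* Otherwise `c` is dominated by its neighbour `d` in `S2`, and one removes `c` and all pendant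
  paths at `c`.
-/

namespace Pool.Agent.Results.MP_2d208d_co.Trees

open Finset Classical

/-- `D` is a weak dominating set of `G`: every vertex `v` outside `D` is adjacent to some `u` in
`D` with `deg u ≤ deg v`. -/
def IsWeakDominating {V : Type*} [Fintype V] (G : SimpleGraph V) (D : Finset V) : Prop :=
  ∀ v, v ∉ D → ∃ u ∈ D, G.Adj v u ∧ G.degree u ≤ G.degree v

/-- `I` is an independent dominating set of `G`. -/
def IsIndepDominating {V : Type*} (G : SimpleGraph V) (I : Finset V) : Prop :=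
  (∀ u ∈ I, ∀ v ∈ I, ¬ G.Adj u v) ∧ ∀ v, v ∉ I → ∃ u ∈ I, G.Adj v u

/-- The weak domination number. -/
noncomputable def weakDomination {V : Type*} [Fintype V] (G : SimpleGraph V) : ℕ :=
  sInf {k | ∃ D : Finset V, IsWeakDominating G D ∧ D.card = k}

/-- The independent domination number. -/
noncomputable def indepDomination {V : Type*} [Fintype V] (G : SimpleGraph V) : ℕ :=
  sInf {k | ∃ I : Finset V, IsIndepDominating G I ∧ I.card = k}

section Core

variable {V : Type*} (G : SimpleGraph V)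

/-- Neighbours of `v` in `W`. -/
noncomputable def nb (W : Finset V) (v : V) : Finset V := W.filter (fun u => G.Adj v u)

/-- Degree of `v` in `G[W]`. -/
noncomputable def dg (W : Finset V) (v : V) : ℕ := (nb G W v).card

/-- Weak dominating sets of `G[W]`. -/
def WD (W D : Finset V) : Prop :=
  D ⊆ W ∧ ∀ v ∈ W, v ∉ D → ∃ u ∈ D, G.Adj v u ∧ dg G W u ≤ dg G W v

/-- Independent dominating sets of `G[W]`. -/
def ID (W I : Finset V) : Prop :=
  I ⊆ W ∧ (∀ u ∈ I, ∀ v ∈ I, ¬ G.Adj u v) ∧ ∀ v ∈ W, v ∉ I → ∃ u ∈ I, G.Adj v u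

variable {G}

theorem mem_nb {W : Finset V} {u v : V} : u ∈ nb G W v ↔ u ∈ W ∧ G.Adj v u := by
  simp [nb]

theorem dg_mono {W W' : Finset V} (h : W' ⊆ W) (v : V) : dg G W' v ≤ dg G W v :=
  card_le_card (filter_subset_filter _ h)

theorem dg_eq {W W' : Finset V} (h : W' ⊆ W) (v : V)
    (h2 : ∀ u ∈ W, u ∉ W' → ¬ G.Adj v u) : dg G W' v = dg G W v := by
  unfold dg
  congr 1
  ext u
  rw [mem_nb, mem_nb]
  constructor
  · rintro ⟨a, b⟩
    exact ⟨h a, b⟩
  · rintro ⟨a, b⟩
    refine ⟨?_, b⟩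
    by_contra hc
    exact h2 u a hc b

/-- The general reduction: pass from `W` to `W' ⊆ W`, from `D` to `D'`, with `R` the set of the
vertices added to the independent dominating set. -/
theorem wd_of {W D W' D' : Finset V} (hD : WD G W D) (hW : W' ⊆ W) (hD' : D' ⊆ W')
    (h : ∀ v ∈ W', v ∉ D' → v ∉ D → (∀ u ∈ W, u ∉ W' → ¬ G.Adj v u) ∨
      ∃ u ∈ D', G.Adj v u ∧ dg G W' u ≤ dg G W' v)
    (h0 : ∀ v ∈ W', v ∈ D → v ∈ D') (h1 : ∀ u ∈ D, u ∈ W' → u ∈ D') : WD G W' D' := by
  refine ⟨hD', fun v hv hvD' => ?_⟩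
  have hvD : v ∉ D := fun hc => hvD' (h0 v hv hc)
  rcases h v hv hvD' hvD with h2 | h2
  · obtain ⟨u, hu, huv, hdeg⟩ := hD.2 v (hW hv) hvD
    have huW' : u ∈ W' := by
      by_contra hc
      exact h2 u (hD.1 hu) hc huv
    refine ⟨u, h1 u hu huW', huv, ?_⟩
    rw [dg_eq hW v h2]
    exact (dg_mono hW u).trans hdeg
  · exact h2

/-- A leaf whose neighbour is not a leaf belongs to every weak dominating set. -/
theorem leaf_mem {W D : Finset V} (hD : WD G W D) {x b : V} (hx : x ∈ W)
    (hx1 : ∀ u ∈ W, G.Adj x u → u = b) (hxb : dg G W x < dg G W b) : x ∈ D := by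
  by_contra hc
  obtain ⟨u, hu, hxu, hdeg⟩ := hD.2 x hx hc
  have := hx1 u (hD.1 hu) hxu
  subst this
  omega

theorem one_le_dg {W : Finset V} {v u : V} (hu : u ∈ W) (h : G.Adj v u) : 1 ≤ dg G W v :=
  card_pos.2 ⟨u, mem_nb.2 ⟨hu, h⟩⟩

theorem two_le_dg {W : Finset V} {v u w : V} (hu : u ∈ W) (h : G.Adj v u) (hw : w ∈ W)
    (h' : G.Adj v w) (hne : u ≠ w) : 2 ≤ dg G W v := by
  have : ({u, w} : Finset V) ⊆ nb G W v := by
    intro z hz
    simp only [mem_insert, mem_singleton] at hz
    rcases hz with rfl | rfl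
    · exact mem_nb.2 ⟨hu, h⟩
    · exact mem_nb.2 ⟨hw, h'⟩
  calc 2 = ({u, w} : Finset V).card := (card_pair hne).symm
    _ ≤ _ := card_le_card this

theorem dg_one {W : Finset V} {v : V} (h : dg G W v = 1) :
    ∃ u ∈ W, G.Adj v u ∧ ∀ w ∈ W, G.Adj v w → w = u := by
  obtain ⟨u, hu⟩ := card_eq_one.1 h
  have h1 : u ∈ nb G W v := by rw [hu]; exact mem_singleton_self u
  rw [mem_nb] at h1
  refine ⟨u, h1.1, h1.2, fun w hw hvw => ?_⟩
  have : w ∈ nb G W v := mem_nb.2 ⟨hw, hvw⟩
  rw [hu] at this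
  exact mem_singleton.1 this

/-- Extending an independent dominating set of `G[W']` to one of `G[W]`. -/
theorem id_of {W W' I' R : Finset V} (hW : W' ⊆ W) (hI : ID G W' I') (hR : R ⊆ W)
    (hRi : ∀ u ∈ R, ∀ v ∈ R, ¬ G.Adj u v) (hRI : ∀ u ∈ R, ∀ v ∈ I', ¬ G.Adj u v)
    (hdom : ∀ v ∈ W, v ∉ W' → v ∉ R → ∃ u ∈ I' ∪ R, G.Adj v u) : ID G W (I' ∪ R) := by
  refine ⟨union_subset (hI.1.trans hW) hR, ?_, ?_⟩
  · intro u hu v hv
    rw [mem_union] at hu hv
    rcases hu with hu | hu <;> rcases hv with hv | hv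
    · exact hI.2.1 u hu v hv
    · exact fun h => hRI v hv u hu h.symm
    · exact hRI u hu v hv
    · exact hRi u hu v hv
  · intro v hv hvI
    rw [mem_union, not_or] at hvI
    by_cases h : v ∈ W'
    · obtain ⟨u, hu, huv⟩ := hI.2.2 v h hvI.1
      exact ⟨u, mem_union_left _ hu, huv⟩
    · exact hdom v hv h hvI.2

/-- The statement proved by induction. -/
def Good (G : SimpleGraph V) (W : Finset V) : Prop :=
  ∀ D, WD G W D → ∃ I, ID G W I ∧ I.card ≤ D.card

/-- Isolated vertices. -/
theorem good_isolated {W : Finset V} {v : V} (hv : v ∈ W) (h : ∀ u ∈ W, ¬ G.Adj v u)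
    (ih : Good G (W.erase v)) : Good G W := by
  intro D hD
  have hvD : v ∈ D := by
    by_contra hc
    obtain ⟨u, hu, huv, -⟩ := hD.2 v hv hc
    exact h u (hD.1 hu) huv
  have hWD : WD G (W.erase v) (D.erase v) := by
    refine wd_of hD (erase_subset _ _) (erase_subset_erase _ hD.1) ?_ ?_ ?_
    · intro w hw _ _
      left
      intro u hu huW hwu
      have : u = v := by
        by_contra hne
        exact huW (mem_erase.2 ⟨hne, hu⟩)
      subst this
      exact h w (mem_of_mem_erase hw) hwu.symm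
    · intro w hw hwD
      exact mem_erase.2 ⟨(mem_erase.1 hw).1, hwD⟩
    · intro w hwD hw
      exact mem_erase.2 ⟨(mem_erase.1 hw).1, hwD⟩
  obtain ⟨I', hI', hcard⟩ := ih _ hWD
  refine ⟨I' ∪ {v}, id_of (erase_subset _ _) hI' (by simpa using hv) ?_ ?_ ?_, ?_⟩
  · intro u hu w hw
    rw [mem_singleton] at hu hw
    subst hu hw
    exact G.loopless.irrefl _
  · intro u hu w hw
    rw [mem_singleton] at hu
    subst hu
    exact h w (mem_of_mem_erase (hI'.1 hw))
  · intro w hw hw' hwv
    exact absurd (mem_erase.2 ⟨by simpa using hwv, hw⟩) hw'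
  · have := card_union_le I' {v}
    have h2 : (D.erase v).card + 1 = D.card := card_erase_add_one hvD
    rw [card_singleton] at this
    omega

/-- Two leaves with the same neighbour. -/
theorem good_twins {W : Finset V} {x y b : V} (hx : x ∈ W) (hy : y ∈ W) (hb : b ∈ W)
    (hxy : x ≠ y) (hxb : G.Adj x b) (hyb : G.Adj y b)
    (hx1 : ∀ u ∈ W, G.Adj x u → u = b) (hy1 : ∀ u ∈ W, G.Adj y u → u = b)
    (ih : Good G (W.erase x)) : Good G W := by
  intro D hD
  have hb2 : 2 ≤ dg G W b := two_le_dg hx hxb.symm hy hyb.symm hxy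
  have hdx : dg G W x ≤ 1 := by
    have : nb G W x ⊆ {b} := by
      intro u hu
      rw [mem_nb] at hu
      exact mem_singleton.2 (hx1 u hu.1 hu.2)
    exact (card_le_card this).trans (by simp)
  have hdy : dg G W y ≤ 1 := by
    have : nb G W y ⊆ {b} := by
      intro u hu
      rw [mem_nb] at hu
      exact mem_singleton.2 (hy1 u hu.1 hu.2)
    exact (card_le_card this).trans (by simp)
  have hxD : x ∈ D := leaf_mem hD hx hx1 (by omega)
  have hyD : y ∈ D := leaf_mem hD hy hy1 (by omega)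
  have hyx : y ∈ W.erase x := mem_erase.2 ⟨hxy.symm, hy⟩
  have hbx : b ≠ x := fun h => by subst h; exact G.loopless.irrefl _ hxb
  have hWD : WD G (W.erase x) (D.erase x) := by
    refine wd_of hD (erase_subset _ _) (erase_subset_erase _ hD.1) ?_ ?_ ?_
    · intro w hw _ _
      by_cases hwb : w = b
      · right
        subst hwb
        refine ⟨y, mem_erase.2 ⟨hxy.symm, hyD⟩, hyb.symm, ?_⟩
        exact ((dg_mono (erase_subset _ _) y).trans hdy).trans (one_le_dg hyx hyb.symm)
      · left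
        intro u hu huW hwu
        have : u = x := by
          by_contra hne
          exact huW (mem_erase.2 ⟨hne, hu⟩)
        subst this
        exact hwb (hx1 w (mem_of_mem_erase hw) hwu.symm)
    · intro w hw hwD
      exact mem_erase.2 ⟨(mem_erase.1 hw).1, hwD⟩
    · intro w hwD hw
      exact mem_erase.2 ⟨(mem_erase.1 hw).1, hwD⟩
  obtain ⟨I', hI', hcard⟩ := ih _ hWD
  have h2 : (D.erase x).card + 1 = D.card := card_erase_add_one hxD
  by_cases hbI : b ∈ I'
  · refine ⟨I' ∪ ∅, id_of (erase_subset _ _) hI' (by simp) (by simp) (by simp) ?_, ?_⟩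
    · intro w hw hw' _
      have : w = x := by
        by_contra hne
        exact hw' (mem_erase.2 ⟨hne, hw⟩)
      subst this
      exact ⟨b, mem_union_left _ hbI, hxb⟩
    · rw [union_empty]
      omega
  · refine ⟨I' ∪ {x}, id_of (erase_subset _ _) hI' (by simpa using hx) ?_ ?_ ?_, ?_⟩
    · intro u hu w hw
      rw [mem_singleton] at hu hw
      subst hu hw
      exact G.loopless.irrefl _
    · intro u hu w hw huw
      rw [mem_singleton] at hu
      subst hu
      have := hx1 w (mem_of_mem_erase (hI'.1 hw)) huw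
      subst this
      exact hbI hw
    · intro w hw hw' hwx
      exact absurd (mem_erase.2 ⟨by simpa using hwx, hw⟩) hw'
    · have := card_union_le I' {x}
      rw [card_singleton] at this
      omega

/-- Adding a vertex of a pendant path with two vertices `a`, `b` at `c`. -/
theorem id_pendant {W I' : Finset V} {a b c : V} (ha : a ∈ W) (hb : b ∈ W)
    (hab : G.Adj a b) (hbc : G.Adj b c)
    (ha1 : ∀ u ∈ W, G.Adj a u → u = b) (hb1 : ∀ u ∈ W, G.Adj b u → u = a ∨ u = c)
    (hI' : ID G (W \ {a, b}) I') : ∃ I, ID G W I ∧ I.card ≤ I'.card + 1 := by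
  have hsub : W \ {a, b} ⊆ W := sdiff_subset
  by_cases hc : c ∈ I'
  · refine ⟨I' ∪ {a}, id_of hsub hI' (by simpa using ha) ?_ ?_ ?_, ?_⟩
    · intro u hu w hw
      rw [mem_singleton] at hu hw
      subst hu hw
      exact G.loopless.irrefl _
    · intro u hu w hw huw
      rw [mem_singleton] at hu
      subst hu
      have h1 := hI'.1 hw
      have := ha1 w (hsub h1) huw
      subst this
      simp at h1
    · intro w hw hw' hwa
      have h1 : w = b := by
        by_contra hne
        apply hw'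
        simp only [mem_sdiff, mem_insert, mem_singleton, not_or]
        exact ⟨hw, by simpa using hwa, hne⟩
      subst h1
      exact ⟨c, mem_union_left _ hc, hbc⟩
    · have := card_union_le I' {a}
      rwa [card_singleton] at this
  · refine ⟨I' ∪ {b}, id_of hsub hI' (by simpa using hb) ?_ ?_ ?_, ?_⟩
    · intro u hu w hw
      rw [mem_singleton] at hu hw
      subst hu hw
      exact G.loopless.irrefl _
    · intro u hu w hw huw
      rw [mem_singleton] at hu
      subst hu
      have h1 := hI'.1 hw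
      rcases hb1 w (hsub h1) huw with h | h
      · subst h
        simp at h1
      · subst h
        exact hc hw
    · intro w hw hw' hwa
      have h1 : w = a := by
        by_contra hne
        apply hw'
        simp only [mem_sdiff, mem_insert, mem_singleton, not_or]
        exact ⟨hw, hne, by simpa using hwa⟩
      subst h1
      exact ⟨b, mem_union_right _ (mem_singleton_self b), hab⟩
    · have := card_union_le I' {b}
      rwa [card_singleton] at this

/-- Removing a pendant path with two vertices `a`, `b` at `c`. -/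
theorem pendant {W D : Finset V} {a b c : V} (hD : WD G W D) (ha : a ∈ W) (hb : b ∈ W)
    (hc : c ∈ W) (hac : a ≠ c) (hab : G.Adj a b) (hbc : G.Adj b c)
    (ha1 : ∀ u ∈ W, G.Adj a u → u = b) (hb1 : ∀ u ∈ W, G.Adj b u → u = a ∨ u = c)
    (ih : Good G (W \ {a, b}))
    (h : c ∈ D ∨ b ∈ D ∨ ∃ y ∈ W, y ≠ b ∧ dg G W y = 1 ∧ G.Adj y c) :
    ∃ I, ID G W I ∧ I.card ≤ D.card := by
  have hsub : W \ {a, b} ⊆ W := sdiff_subset
  have hb2 : 2 ≤ dg G W b := two_le_dg ha hab.symm hc hbc hac
  have hda : dg G W a ≤ 1 := by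
    have : nb G W a ⊆ {b} := by
      intro u hu
      rw [mem_nb] at hu
      exact mem_singleton.2 (ha1 u hu.1 hu.2)
    exact (card_le_card this).trans (by simp)
  have haD : a ∈ D := leaf_mem hD ha ha1 (by omega)
  have hbc' : b ≠ c := fun h => by subst h; exact G.loopless.irrefl _ hbc
  have hcW' : c ∈ W \ {a, b} := by
    simp only [mem_sdiff, mem_insert, mem_singleton, not_or]
    exact ⟨hc, fun h => hac h.symm, fun h => hbc' h.symm⟩
  have hDc : (D \ {a, b}).card + 1 ≤ D.card := by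
    have h1 : D \ {a, b} ⊆ D.erase a := by
      intro u hu
      simp only [mem_sdiff, mem_insert, mem_singleton, not_or] at hu
      exact mem_erase.2 ⟨hu.2.1, hu.1⟩
    have h2 := card_le_card h1
    have h3 : (D.erase a).card + 1 = D.card := card_erase_add_one haD
    omega
  -- the vertices of `W'` other than `c` have no removed neighbours
  have hno : ∀ v ∈ W \ {a, b}, v ≠ c → ∀ u ∈ W, u ∉ W \ {a, b} → ¬ G.Adj v u := by
    intro v hv hvc u hu huW hvu
    simp only [mem_sdiff, mem_insert, mem_singleton, not_or] at hv huW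
    have h1 : u = a ∨ u = b := by
      by_contra hcon
      rw [not_or] at hcon
      exact huW ⟨hu, hcon⟩
    rcases h1 with h1 | h1
    · subst h1
      exact hv.2.2 (ha1 v hv.1 hvu.symm)
    · subst h1
      rcases hb1 v hv.1 hvu.symm with h2 | h2
      · exact hv.2.1 h2
      · exact hvc h2
  have key : ∀ D', WD G (W \ {a, b}) D' → D'.card + 1 ≤ D.card →
      ∃ I, ID G W I ∧ I.card ≤ D.card := by
    intro D' hD' hcard
    obtain ⟨I', hI', hI'c⟩ := ih D' hD'
    obtain ⟨I, hI, hIc⟩ := id_pendant ha hb hab hbc ha1 hb1 hI'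
    exact ⟨I, hI, by omega⟩
  by_cases hcD : c ∈ D
  · refine key (D \ {a, b}) ?_ hDc
    refine wd_of hD hsub (sdiff_subset_sdiff hD.1 (Subset.refl _)) ?_ ?_ ?_
    · intro v hv _ hvD
      left
      refine hno v hv ?_
      intro h
      subst h
      exact hvD hcD
    · intro v hv hvD
      simp only [mem_sdiff] at hv ⊢
      exact ⟨hvD, hv.2⟩
    · intro v hvD hv
      simp only [mem_sdiff] at hv ⊢
      exact ⟨hvD, hv.2⟩
  · by_cases hbD : b ∈ D
    · refine key (insert c (D \ {a, b})) ?_ ?_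
      · refine wd_of hD hsub ?_ ?_ ?_ ?_
        · exact insert_subset hcW' (sdiff_subset_sdiff hD.1 (Subset.refl _))
        · intro v hv hvD' _
          left
          refine hno v hv ?_
          intro h
          subst h
          exact hvD' (mem_insert_self _ _)
        · intro v hv hvD
          apply mem_insert_of_mem
          simp only [mem_sdiff] at hv ⊢
          exact ⟨hvD, hv.2⟩
        · intro v hvD hv
          apply mem_insert_of_mem
          simp only [mem_sdiff] at hv ⊢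
          exact ⟨hvD, hv.2⟩
      · have h1 : (D \ {a, b}).card + 2 ≤ D.card := by
          have h2 : ({a, b} : Finset V) ⊆ D := by
            intro z hz
            simp only [mem_insert, mem_singleton] at hz
            rcases hz with rfl | rfl
            · exact haD
            · exact hbD
          have h3 := card_sdiff_add_card_eq_card h2
          have h4 : ({a, b} : Finset V).card = 2 := by
            apply card_pair
            intro h
            subst h
            exact G.loopless.irrefl _ hab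
          omega
        have h2 := card_insert_le c (D \ {a, b})
        omega
    · obtain ⟨y, hy, hyb, hdy, hyc⟩ : ∃ y ∈ W, y ≠ b ∧ dg G W y = 1 ∧ G.Adj y c := by
        rcases h with h | h | h
        · exact absurd h hcD
        · exact absurd h hbD
        · exact h
      obtain ⟨z, hz, hyz, hz1⟩ := dg_one hdy
      have hzc : z = c := (hz1 c hc hyc).symm
      subst hzc
      have hc2 : 2 ≤ dg G W z := two_le_dg hy hyc.symm hb hbc.symm hyb
      have hyD : y ∈ D := leaf_mem hD hy hz1 (by omega)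
      have hya : y ≠ a := by
        intro h
        subst h
        exact hbc' (ha1 z hc hyc).symm
      have hyW' : y ∈ W \ {a, b} := by
        simp only [mem_sdiff, mem_insert, mem_singleton, not_or]
        exact ⟨hy, hya, hyb⟩
      refine key (D \ {a, b}) ?_ hDc
      refine wd_of hD hsub (sdiff_subset_sdiff hD.1 (Subset.refl _)) ?_ ?_ ?_
      · intro v hv _ hvD
        by_cases hvc : v = z
        · right
          subst hvc
          refine ⟨y, ?_, hyc.symm, ?_⟩
          · simp only [mem_sdiff, mem_insert, mem_singleton, not_or]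
            exact ⟨hyD, hya, hyb⟩
          · exact ((dg_mono hsub y).trans hdy.le).trans (one_le_dg hyW' hyc.symm)
        · left
          exact hno v hv hvc
      · intro v hv hvD
        simp only [mem_sdiff] at hv ⊢
        exact ⟨hvD, hv.2⟩
      · intro v hvD hv
        simp only [mem_sdiff] at hv ⊢
        exact ⟨hvD, hv.2⟩

/-- Components with one edge. -/
theorem good_edge {W : Finset V} {a b : V} (ha : a ∈ W) (hb : b ∈ W) (hab : G.Adj a b)
    (ha1 : ∀ u ∈ W, G.Adj a u → u = b) (hb1 : ∀ u ∈ W, G.Adj b u → u = a)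
    (ih : Good G (W \ {a, b})) : Good G W := by
  intro D hD
  have hsub : W \ {a, b} ⊆ W := sdiff_subset
  have hno : ∀ v ∈ W \ {a, b}, ∀ u ∈ W, u ∉ W \ {a, b} → ¬ G.Adj v u := by
    intro v hv u hu huW hvu
    simp only [mem_sdiff, mem_insert, mem_singleton, not_or] at hv huW
    have h1 : u = a ∨ u = b := by
      by_contra hcon
      rw [not_or] at hcon
      exact huW ⟨hu, hcon⟩
    rcases h1 with h1 | h1
    · subst h1
      exact hv.2.2 (ha1 v hv.1 hvu.symm)
    · subst h1
      exact hv.2.1 (hb1 v hv.1 hvu.symm)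
  have hWD : WD G (W \ {a, b}) (D \ {a, b}) := by
    refine wd_of hD hsub (sdiff_subset_sdiff hD.1 (Subset.refl _)) ?_ ?_ ?_
    · intro v hv _ _
      left
      exact hno v hv
    · intro v hv hvD
      simp only [mem_sdiff] at hv ⊢
      exact ⟨hvD, hv.2⟩
    · intro v hvD hv
      simp only [mem_sdiff] at hv ⊢
      exact ⟨hvD, hv.2⟩
  have habD : a ∈ D ∨ b ∈ D := by
    by_contra hcon
    rw [not_or] at hcon
    obtain ⟨u, hu, hau, -⟩ := hD.2 a ha hcon.1
    have := ha1 u (hD.1 hu) hau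
    subst this
    exact hcon.2 hu
  have hDc : (D \ {a, b}).card + 1 ≤ D.card := by
    rcases habD with h | h
    · have h1 : D \ {a, b} ⊆ D.erase a := by
        intro u hu
        simp only [mem_sdiff, mem_insert, mem_singleton, not_or] at hu
        exact mem_erase.2 ⟨hu.2.1, hu.1⟩
      have h2 := card_le_card h1
      have h3 : (D.erase a).card + 1 = D.card := card_erase_add_one h
      omega
    · have h1 : D \ {a, b} ⊆ D.erase b := by
        intro u hu
        simp only [mem_sdiff, mem_insert, mem_singleton, not_or] at hu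
        exact mem_erase.2 ⟨hu.2.2, hu.1⟩
      have h2 := card_le_card h1
      have h3 : (D.erase b).card + 1 = D.card := card_erase_add_one h
      omega
  obtain ⟨I', hI', hcard⟩ := ih _ hWD
  refine ⟨I' ∪ {a}, id_of hsub hI' (by simpa using ha) ?_ ?_ ?_, ?_⟩
  · intro u hu w hw
    rw [mem_singleton] at hu hw
    subst hu hw
    exact G.loopless.irrefl _
  · intro u hu w hw huw
    rw [mem_singleton] at hu
    subst hu
    have h1 := hI'.1 hw
    have := ha1 w (hsub h1) huw
    subst this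
    simp at h1
  · intro w hw hw' hwa
    have h1 : w = b := by
      by_contra hne
      apply hw'
      simp only [mem_sdiff, mem_insert, mem_singleton, not_or]
      exact ⟨hw, by simpa using hwa, hne⟩
    subst h1
    exact ⟨a, mem_union_right _ (mem_singleton_self a), hab.symm⟩
  · have := card_union_le I' {a}
    rw [card_singleton] at this
    omega

/-- The structure of the vertices with few neighbours in `S1`. -/
theorem few {W : Finset V} (_hiso : ∀ v ∈ W, ∃ u ∈ W, G.Adj v u)
    (htw : ∀ x y b, x ∈ W → y ∈ W → b ∈ W → x ≠ y → dg G W x = 1 → dg G W y = 1 →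
      G.Adj x b → ¬ G.Adj y b) {b : V} (hb : b ∈ W) (hb2 : 2 ≤ dg G W b)
    (hb1 : dg G (W.filter (fun v => 2 ≤ dg G W v)) b ≤ 1) :
    ∃ a ∈ W, dg G W a = 1 ∧ G.Adj a b ∧ ∃ c ∈ W, 2 ≤ dg G W c ∧ G.Adj b c ∧
      ∀ u ∈ W, G.Adj b u → u = a ∨ u = c := by
  have hsplit : nb G W b = nb G (W.filter (fun v => 2 ≤ dg G W v)) b ∪
      (nb G W b).filter (fun v => dg G W v = 1) := by
    ext u
    simp only [mem_union, mem_nb, mem_filter]
    constructor
    · rintro ⟨h1, h2⟩
      by_cases h : 2 ≤ dg G W u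
      · exact Or.inl ⟨⟨h1, h⟩, h2⟩
      · refine Or.inr ⟨⟨h1, h2⟩, ?_⟩
        have := one_le_dg hb h2.symm
        omega
    · rintro (⟨⟨h1, -⟩, h2⟩ | ⟨⟨h1, h2⟩, -⟩) <;> exact ⟨h1, h2⟩
  have hcard := card_union_le (nb G (W.filter (fun v => 2 ≤ dg G W v)) b)
    ((nb G W b).filter (fun v => dg G W v = 1))
  rw [← hsplit] at hcard
  have hle : ((nb G W b).filter (fun v => dg G W v = 1)).card ≤ 1 := by
    rw [card_le_one]
    intro x hx y hy
    rw [mem_filter, mem_nb] at hx hy
    by_contra hne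
    exact htw x y b hx.1.1 hy.1.1 hb hne hx.2 hy.2 hx.1.2.symm hy.1.2.symm
  have hb2' : 2 ≤ (nb G W b).card := hb2
  have hb1' : (nb G (W.filter (fun v => 2 ≤ dg G W v)) b).card ≤ 1 := hb1
  have h1 : (nb G (W.filter (fun v => 2 ≤ dg G W v)) b).card = 1 := by omega
  have h2 : ((nb G W b).filter (fun v => dg G W v = 1)).card = 1 := by omega
  obtain ⟨c, hc⟩ := card_eq_one.1 h1
  obtain ⟨a, ha⟩ := card_eq_one.1 h2
  have hc' : c ∈ nb G (W.filter (fun v => 2 ≤ dg G W v)) b := by
    rw [hc]; exact mem_singleton_self c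
  have ha' : a ∈ (nb G W b).filter (fun v => dg G W v = 1) := by
    rw [ha]; exact mem_singleton_self a
  rw [mem_nb, mem_filter] at hc'
  rw [mem_filter, mem_nb] at ha'
  refine ⟨a, ha'.1.1, ha'.2, ha'.1.2.symm, c, hc'.1.1, hc'.1.2, hc'.2, ?_⟩
  intro u hu hbu
  have : u ∈ nb G W b := mem_nb.2 ⟨hu, hbu⟩
  rw [hsplit, mem_union, hc, ha, mem_singleton, mem_singleton] at this
  tauto

/-- The induction. -/
theorem good (H : ∀ S : Finset V, S.Nonempty → ∃ v ∈ S, dg G S v ≤ 1) (W : Finset V) :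
    Good G W := by
  induction W using Finset.strongInduction with
  | H W ih =>
  have hpair : ∀ a b, a ∈ W → W \ {a, b} ⊂ W := by
    intro a b ha
    refine ⟨sdiff_subset, fun h => ?_⟩
    have := h ha
    simp at this
  by_cases h0 : W = ∅
  · intro D hD
    subst h0
    exact ⟨∅, ⟨by simp, by simp, by simp⟩, by simp⟩
  by_cases hiso : ∃ v ∈ W, ∀ u ∈ W, ¬ G.Adj v u
  · obtain ⟨v, hv, hv1⟩ := hiso
    exact good_isolated hv hv1 (ih _ (erase_ssubset hv))
  replace hiso : ∀ v ∈ W, ∃ u ∈ W, G.Adj v u := by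
    intro v hv
    by_contra hcon
    refine hiso ⟨v, hv, fun u hu huv => hcon ⟨u, hu, huv⟩⟩
  by_cases htw : ∃ x y b, x ∈ W ∧ y ∈ W ∧ b ∈ W ∧ x ≠ y ∧ dg G W x = 1 ∧ dg G W y = 1 ∧
      G.Adj x b ∧ G.Adj y b
  · obtain ⟨x, y, b, hx, hy, hb, hxy, hdx, hdy, hxb, hyb⟩ := htw
    obtain ⟨b1, -, -, hx1⟩ := dg_one hdx
    obtain ⟨b2, -, -, hy1⟩ := dg_one hdy
    refine good_twins hx hy hb hxy hxb hyb ?_ ?_ (ih _ (erase_ssubset hx))
    · intro u hu hxu
      rw [hx1 u hu hxu, hx1 b hb hxb]
    · intro u hu hyu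
      rw [hy1 u hu hyu, hy1 b hb hyb]
  replace htw : ∀ x y b, x ∈ W → y ∈ W → b ∈ W → x ≠ y → dg G W x = 1 → dg G W y = 1 →
      G.Adj x b → ¬ G.Adj y b := by
    intro x y b hx hy hb hxy hdx hdy hxb hyb
    exact htw ⟨x, y, b, hx, hy, hb, hxy, hdx, hdy, hxb, hyb⟩
  have hfew := fun b (hb : b ∈ W) => few hiso htw (b := b) hb
  set S1 := W.filter (fun v => 2 ≤ dg G W v) with hS1def
  have memS1 : ∀ v, v ∈ S1 ↔ v ∈ W ∧ 2 ≤ dg G W v := by
    intro v
    rw [hS1def, mem_filter]
  by_cases hS1 : S1 = ∅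
  · have hall : ∀ v ∈ W, dg G W v = 1 := by
      intro v hv
      obtain ⟨u, hu, huv⟩ := hiso v hv
      have h1 := one_le_dg hu huv
      by_contra hne
      have : v ∈ S1 := (memS1 v).2 ⟨hv, by omega⟩
      rw [hS1] at this
      exact absurd this (notMem_empty v)
    obtain ⟨v, hv⟩ := nonempty_iff_ne_empty.2 h0
    obtain ⟨u, hu, hvu, hv1⟩ := dg_one (hall v hv)
    obtain ⟨w, hw, huw, hu1⟩ := dg_one (hall u hu)
    have hwv : w = v := (hu1 v hv hvu.symm).symm
    subst hwv
    exact good_edge hv hu hvu hv1 hu1 (ih _ (hpair _ _ hv))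
  set S2 := S1.filter (fun v => 2 ≤ dg G S1 v) with hS2def
  have memS2 : ∀ v, v ∈ S2 ↔ v ∈ S1 ∧ 2 ≤ dg G S1 v := by
    intro v
    rw [hS2def, mem_filter]
  by_cases hS2 : S2 = ∅
  · have hall : ∀ v ∈ S1, dg G S1 v ≤ 1 := by
      intro v hv
      by_contra hne
      have : v ∈ S2 := (memS2 v).2 ⟨hv, by omega⟩
      rw [hS2] at this
      exact absurd this (notMem_empty v)
    obtain ⟨b, hb⟩ := nonempty_iff_ne_empty.2 hS1
    obtain ⟨a, ha, hda, hab, c, hc, hc2, hbc, hb1⟩ :=
      hfew b ((memS1 b).1 hb).1 ((memS1 b).1 hb).2 (hall b hb)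
    have hcS1 : c ∈ S1 := (memS1 c).2 ⟨hc, hc2⟩
    obtain ⟨y, hy, hdy, hyc, -⟩ := hfew c hc hc2 (hall c hcS1)
    obtain ⟨a1, -, -, ha1⟩ := dg_one hda
    intro D hD
    refine pendant hD ha ((memS1 b).1 hb).1 hc ?_ hab hbc ?_ hb1 (ih _ (hpair _ _ ha))
      (Or.inr (Or.inr ⟨y, hy, ?_, hdy, hyc⟩))
    · rintro rfl
      omega
    · intro u hu hau
      rw [ha1 u hu hau, ha1 b ((memS1 b).1 hb).1 hab]
    · rintro rfl
      have := ((memS1 _).1 hb).2
      omega
  obtain ⟨c, hcS2, hc1⟩ := H S2 (nonempty_iff_ne_empty.2 hS2)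
  have hcS1 : c ∈ S1 := ((memS2 c).1 hcS2).1
  have hc : c ∈ W := ((memS1 c).1 hcS1).1
  have hc2 : 2 ≤ dg G W c := ((memS1 c).1 hcS1).2
  -- the vertices `b` at `c`
  have hBfact : ∀ b ∈ S1, b ∉ S2 → G.Adj b c → ∃ a ∈ W, dg G W a = 1 ∧ G.Adj a b ∧
      (∀ u ∈ W, G.Adj a u → u = b) ∧ (∀ u ∈ W, G.Adj b u → u = a ∨ u = c) := by
    intro b hb hbS2 hbc
    have hle : dg G S1 b ≤ 1 := by
      by_contra hcon
      exact hbS2 ((memS2 b).2 ⟨hb, by omega⟩)
    obtain ⟨a, ha, hda, hab, c', hc', hc2', hbc', hb1⟩ :=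
      hfew b ((memS1 b).1 hb).1 ((memS1 b).1 hb).2 hle
    obtain ⟨a1, -, -, ha1⟩ := dg_one hda
    have hcc : c' = c := by
      rcases hb1 c hc hbc with h | h
      · subst h
        omega
      · exact h.symm
    subst hcc
    refine ⟨a, ha, hda, hab, ?_, hb1⟩
    intro u hu hau
    rw [ha1 u hu hau, ha1 b ((memS1 b).1 hb).1 hab]
  have hexB : ∃ b ∈ S1, b ∉ S2 ∧ G.Adj b c := by
    by_contra hcon
    have hsub : nb G S1 c ⊆ nb G S2 c := by
      intro u hu
      rw [mem_nb] at hu ⊢
      refine ⟨?_, hu.2⟩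
      by_contra hu2
      exact hcon ⟨u, hu.1, hu2, hu.2.symm⟩
    have h1 : dg G S1 c ≤ dg G S2 c := card_le_card hsub
    have h2 := ((memS2 c).1 hcS2).2
    omega
  intro D hD
  -- the reduction at a pendant path
  have hred : ∀ b ∈ S1, b ∉ S2 → G.Adj b c →
      (c ∈ D ∨ b ∈ D ∨ ∃ y ∈ W, y ≠ b ∧ dg G W y = 1 ∧ G.Adj y c) →
      ∃ I, ID G W I ∧ I.card ≤ D.card := by
    intro b hb hbS2 hbc h
    obtain ⟨a, ha, hda, hab, ha1, hb1⟩ := hBfact b hb hbS2 hbc
    refine pendant hD ha ((memS1 b).1 hb).1 hc ?_ hab hbc ha1 hb1 (ih _ (hpair _ _ ha)) h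
    rintro rfl
    omega
  obtain ⟨b₀, hb₀, hb₀S2, hb₀c⟩ := hexB
  by_cases hcD : c ∈ D
  · exact hred b₀ hb₀ hb₀S2 hb₀c (Or.inl hcD)
  by_cases hleaf : ∃ y ∈ W, dg G W y = 1 ∧ G.Adj y c
  · obtain ⟨y, hy, hdy, hyc⟩ := hleaf
    refine hred b₀ hb₀ hb₀S2 hb₀c (Or.inr (Or.inr ⟨y, hy, ?_, hdy, hyc⟩))
    rintro rfl
    have := ((memS1 _).1 hb₀).2
    omega
  by_cases hbD : ∃ b ∈ S1, b ∉ S2 ∧ G.Adj b c ∧ b ∈ D
  · obtain ⟨b, hb, hbS2, hbc, hbD⟩ := hbD
    exact hred b hb hbS2 hbc (Or.inr (Or.inl hbD))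
  -- the last case
  obtain ⟨d, hdD, hcd, -⟩ := hD.2 c hc hcD
  have hdW : d ∈ W := hD.1 hdD
  have hS1of : ∀ u ∈ W, G.Adj c u → u ∈ S1 := by
    intro u hu hcu
    rw [memS1]
    refine ⟨hu, ?_⟩
    have h1 := one_le_dg hc hcu.symm
    by_contra hcon
    exact hleaf ⟨u, hu, by omega, hcu.symm⟩
  have hdS2 : d ∈ S2 := by
    by_contra hcon
    exact hbD ⟨d, hS1of d hdW hcd, hcon, hcd.symm, hdD⟩
  have hS2one : ∀ u ∈ S2, G.Adj c u → u = d := by
    intro u hu hcu
    by_contra hne
    have := two_le_dg (G := G) (W := S2) hu hcu hdS2 hcd hne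
    omega
  set B := W.filter (fun u => G.Adj c u ∧ u ∉ S2) with hBdef
  have memB : ∀ u, u ∈ B ↔ u ∈ W ∧ G.Adj c u ∧ u ∉ S2 := by
    intro u
    rw [hBdef, mem_filter]
  have hB : ∀ b ∈ B, ∃ a ∈ W, dg G W a = 1 ∧ G.Adj a b ∧
      (∀ u ∈ W, G.Adj a u → u = b) ∧ (∀ u ∈ W, G.Adj b u → u = a ∨ u = c) := by
    intro b hb
    rw [memB] at hb
    exact hBfact b (hS1of b hb.1 hb.2.1) hb.2.2 hb.2.1.symm
  set A := W.filter (fun a => dg G W a = 1 ∧ ∃ b ∈ B, G.Adj a b) with hAdef
  have memA : ∀ u, u ∈ A ↔ u ∈ W ∧ dg G W u = 1 ∧ ∃ b ∈ B, G.Adj u b := by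
    intro u
    rw [hAdef, mem_filter]
  have hBA : B.card ≤ A.card := by
    choose! g hg using hB
    refine card_le_card_of_injOn g ?_ ?_
    · intro b hb
      have hb' : b ∈ B := hb
      obtain ⟨h1, h2, h3, -⟩ := hg b hb'
      exact (memA _).2 ⟨h1, h2, b, hb', h3⟩
    · intro b hb b' hb' hbb
      have hb1 : b ∈ B := hb
      have hb2 : b' ∈ B := hb'
      obtain ⟨h1, h2, h3, h4, -⟩ := hg b hb1
      obtain ⟨h1', h2', h3', h4', -⟩ := hg b' hb2
      have hbb' : g b = g b' := hbb
      refine (h4 b' ((memB b').1 hb2).1 ?_).symm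
      rw [hbb']
      exact h3'
  have hAD : A ⊆ D := by
    intro a ha
    rw [memA] at ha
    obtain ⟨haW, hda, b, hb, hab⟩ := ha
    obtain ⟨a1, -, -, ha1⟩ := dg_one hda
    have hbW := ((memB b).1 hb).1
    have hb2 := ((memS1 b).1 (hS1of b hbW ((memB b).1 hb).2.1)).2
    refine leaf_mem hD haW (b := b) ?_ (by omega)
    intro u hu hau
    rw [ha1 u hu hau, ha1 b hbW hab]
  have hBD : ∀ b ∈ B, b ∉ D := by
    intro b hb hbD'
    rw [memB] at hb
    exact hbD ⟨b, hS1of b hb.1 hb.2.1, hb.2.2, hb.2.1.symm, hbD'⟩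
  set W' := W \ (insert c (A ∪ B)) with hW'def
  have memW' : ∀ u, u ∈ W' ↔ u ∈ W ∧ u ≠ c ∧ u ∉ A ∧ u ∉ B := by
    intro u
    rw [hW'def]
    simp only [mem_sdiff, mem_insert, mem_union, not_or]
  have hsub : W' ⊆ W := sdiff_subset
  have hWD : WD G W' (D \ A) := by
    refine wd_of hD hsub ?_ ?_ ?_ ?_
    · intro u hu
      rw [mem_sdiff] at hu
      rw [memW']
      refine ⟨hD.1 hu.1, ?_, hu.2, fun h => hBD u h hu.1⟩
      rintro rfl
      exact hcD hu.1
    · intro v hv _ hvD
      left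
      rw [memW'] at hv
      intro u hu huW' hvu
      have hcase : u = c ∨ u ∈ A ∨ u ∈ B := by
        by_contra hcon
        rw [not_or, not_or] at hcon
        exact huW' ((memW' u).2 ⟨hu, hcon⟩)
      rcases hcase with h | h | h
      · subst h
        have hvS2 : v ∈ S2 := by
          by_contra hcon
          exact hv.2.2.2 ((memB v).2 ⟨hv.1, hvu.symm, hcon⟩)
        have := hS2one v hvS2 hvu.symm
        subst this
        exact hvD hdD
      · rw [memA] at h
        obtain ⟨huW, hdu, b, hb, hub⟩ := h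
        obtain ⟨a1, -, -, ha1⟩ := dg_one hdu
        have : v = b := by
          rw [ha1 v hv.1 hvu.symm, ha1 b ((memB b).1 hb).1 hub]
        subst this
        exact hv.2.2.2 hb
      · obtain ⟨a, ha, hda, hau, -, hu1⟩ := hB u h
        rcases hu1 v hv.1 hvu.symm with h1 | h1
        · subst h1
          exact hv.2.2.1 ((memA _).2 ⟨ha, hda, u, h, hau⟩)
        · exact hv.2.1 h1
    · intro v hv hvD
      rw [memW'] at hv
      exact mem_sdiff.2 ⟨hvD, hv.2.2.1⟩
    · intro v hvD hv
      rw [memW'] at hv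
      exact mem_sdiff.2 ⟨hvD, hv.2.2.1⟩
  have hss : W' ⊂ W := by
    refine ⟨hsub, fun h => ?_⟩
    have := h hc
    rw [memW'] at this
    exact this.2.1 rfl
  obtain ⟨I', hI', hcard⟩ := ih W' hss _ hWD
  refine ⟨I' ∪ B, id_of hsub hI' (fun b hb => ((memB b).1 hb).1) ?_ ?_ ?_, ?_⟩
  · intro u hu v hv huv
    obtain ⟨a, ha, hda, hau, -, hu1⟩ := hB u hu
    rcases hu1 v ((memB v).1 hv).1 huv with h | h
    · subst h
      have := ((memS1 v).1 (hS1of v ha ((memB v).1 hv).2.1)).2
      omega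
    · subst h
      exact ((memB v).1 hv).2.2 hcS2
  · intro u hu v hv huv
    have hv' := (memW' v).1 (hI'.1 hv)
    obtain ⟨a, ha, hda, hau, -, hu1⟩ := hB u hu
    rcases hu1 v hv'.1 huv with h | h
    · subst h
      exact hv'.2.2.1 ((memA _).2 ⟨ha, hda, u, hu, hau⟩)
    · exact hv'.2.1 h
  · intro v hv hvW' hvB
    have hcase : v = c ∨ v ∈ A := by
      by_contra hcon
      rw [not_or] at hcon
      exact hvW' ((memW' v).2 ⟨hv, hcon.1, hcon.2, hvB⟩)
    rcases hcase with h | h
    · subst h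
      have hb₀B : b₀ ∈ B := (memB b₀).2 ⟨((memS1 b₀).1 hb₀).1, hb₀c.symm, hb₀S2⟩
      exact ⟨b₀, mem_union_right _ hb₀B, hb₀c.symm⟩
    · obtain ⟨-, -, b, hb, hvb⟩ := (memA v).1 h
      exact ⟨b, mem_union_right _ hb, hvb⟩
  · have h1 := card_union_le I' B
    have h2 := card_sdiff_add_card_eq_card hAD
    omega

end Core

/-- Every nonempty finite set of vertices of an acyclic graph contains a vertex with at most one
neighbour in the set. -/
theorem acyclic_thin {V : Type*} {G : SimpleGraph V} (hG : G.IsAcyclic) (S : Finset V)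
    (hS : S.Nonempty) : ∃ v ∈ S, dg G S v ≤ 1 := by
  obtain ⟨r, hr⟩ := hS
  have hne : (S.filter (fun u => G.Reachable r u)).Nonempty :=
    ⟨r, mem_filter.2 ⟨hr, SimpleGraph.Reachable.refl r⟩⟩
  obtain ⟨v, hv, hmax⟩ := exists_max_image _ (fun u => G.dist r u) hne
  rw [mem_filter] at hv
  refine ⟨v, hv.1, ?_⟩
  obtain ⟨p, hp, hlen⟩ := hv.2.exists_path_of_dist
  have hsub : nb G S v ⊆ {p.penultimate} := by
    intro w hw
    rw [mem_nb] at hw
    rw [mem_singleton]
    have hrw : G.Reachable r w := hv.2.trans hw.2.reachable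
    obtain ⟨q, hq, hqlen⟩ := hrw.exists_path_of_dist
    have hle := hmax w (mem_filter.2 ⟨hw.1, hrw⟩)
    have hvq : v ∉ q.support := by
      intro hmem
      have h1 : G.dist r v ≤ (q.takeUntil v hmem).length := SimpleGraph.dist_le _
      have h2 : (q.takeUntil v hmem).length ≤ q.length := q.length_takeUntil_le_length hmem
      rcases hG.dist_eq_dist_add_one_of_adj_of_reachable r hw.2 hv.2 with h | h <;> omega
    exact hG.eq_penultimate_of_adj_end hp hw.2
      (hG.mem_support_of_ne_mem_support_of_adj_of_isPath hp hq hw.2 hvq)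
  exact (card_le_card hsub).trans (by simp)

/-- The independent domination number of a finite acyclic graph, in particular of a finite tree,
is at most its weak domination number. -/
theorem result {V : Type*} [Fintype V] (G : SimpleGraph V) (hG : G.IsAcyclic) :
    indepDomination G ≤ weakDomination G := by
  have hdeg : ∀ v, dg G univ v = G.degree v := by
    intro v
    unfold dg nb
    rw [← SimpleGraph.card_neighborFinset_eq_degree]
    congr 1
    ext u
    simp
  have hne : {k | ∃ D : Finset V, IsWeakDominating G D ∧ D.card = k}.Nonempty :=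
    ⟨(univ : Finset V).card, univ, fun v hv => absurd (mem_univ v) hv, rfl⟩
  obtain ⟨D, hD, hcard⟩ := Nat.sInf_mem hne
  have hWD : WD G univ D := by
    refine ⟨subset_univ D, fun v _ hv => ?_⟩
    obtain ⟨u, hu, huv, hle⟩ := hD v hv
    refine ⟨u, hu, huv, ?_⟩
    rw [hdeg, hdeg]
    exact hle
  obtain ⟨I, hI, hIc⟩ := good (acyclic_thin hG) univ D hWD
  have h1 : indepDomination G ≤ I.card :=
    Nat.sInf_le ⟨I, ⟨hI.2.1, fun v hv => hI.2.2 v (mem_univ v) hv⟩, rfl⟩
  have h2 : weakDomination G = D.card := hcard.symm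
  omega

end Pool.Agent.Results.MP_2d208d_co.Trees
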